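import Pool.Agent.Helper92.FR.GoalsA

namespace Pool.Agent.Helper53.FR

open MeasureTheory Pool.Agent.Helper92.FR

/-- TRV. Lower bound for the variance of the truncated exponential law. -/
theorem trv (h0 : Tr0Stmt) (hD : TrdStmt) : TrvStmt := by
  intro a
  obtain ⟨hMpos, hprob, -, -, hsupp, hm0, hm1⟩ := h0 a
  set m := mm a with hm
  set b : ℝ := 1 + |a| with hb
  have hb1 : 1 ≤ b := by have := abs_nonneg a; linarith
  set t : ℝ := 1 / (4 * b) with ht
  have htpos : 0 < t := by positivity
  -- measure of the small interval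
  have hsmall : (tl a) (Set.Ioo (m - t) (m + t)) ≤ ENNReal.ofReal (1 / 2) := by
    unfold tl
    rw [withDensity_apply _ measurableSet_Ioo, Measure.restrict_restrict measurableSet_Ioo]
    calc ∫⁻ x in Set.Ioo (m - t) (m + t) ∩ Set.Icc (0 : ℝ) 1,
          ENNReal.ofReal (Real.exp (a * x) / MM a) ∂volume
        ≤ ∫⁻ _x in Set.Ioo (m - t) (m + t) ∩ Set.Icc (0 : ℝ) 1, ENNReal.ofReal b ∂volume := by
          apply setLIntegral_mono measurable_const
          intro x hx
          exact ENNReal.ofReal_le_ofReal (hD a x hx.2.1 hx.2.2)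
      _ = ENNReal.ofReal b * volume (Set.Ioo (m - t) (m + t) ∩ Set.Icc (0 : ℝ) 1) := by
          rw [setLIntegral_const]
      _ ≤ ENNReal.ofReal b * volume (Set.Ioo (m - t) (m + t)) := by
          gcongr
          exact Set.inter_subset_left
      _ = ENNReal.ofReal (1 / 2) := by
          rw [Real.volume_Ioo, ← ENNReal.ofReal_mul (by linarith)]
          congr 1
          rw [ht]; field_simp; ring
  have hint : Integrable (fun x : ℝ => (x - m) ^ 2) (tl a) := by
    refine Integrable.of_bound (C := 1) (by fun_prop) ?_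
    have : ∀ᵐ x ∂(tl a), x ∈ Set.Icc (0 : ℝ) 1 := by
      rw [ae_iff]
      exact hsupp
    filter_upwards [this] with x hx
    rw [Real.norm_eq_abs, abs_of_nonneg (sq_nonneg _)]
    have h1 : |x - m| ≤ 1 := by rw [abs_le]; constructor <;> linarith [hx.1, hx.2]
    have h2 := abs_nonneg (x - m)
    rw [← sq_abs]
    nlinarith
  have hmark := mul_meas_ge_le_integral_of_nonneg (μ := tl a) (f := fun x : ℝ => (x - m) ^ 2)
    (Filter.Eventually.of_forall fun x => sq_nonneg _) hint (t ^ 2)
  have hcompl : (tl a).real {x : ℝ | t ^ 2 ≤ (x - m) ^ 2} ≥ 1 / 2 := by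
    have h1 : (Set.Ioo (m - t) (m + t))ᶜ ⊆ {x : ℝ | t ^ 2 ≤ (x - m) ^ 2} := by
      intro x hx
      simp only [Set.mem_compl_iff, Set.mem_Ioo, not_and_or, not_lt] at hx
      change t ^ 2 ≤ (x - m) ^ 2
      rw [← sq_abs (x - m)]
      have : t ≤ |x - m| := by
        rcases hx with hx | hx
        · rw [le_abs]; right; linarith
        · rw [le_abs]; left; linarith
      nlinarith
    have h2 : (tl a).real (Set.Ioo (m - t) (m + t))ᶜ ≤ (tl a).real {x : ℝ | t ^ 2 ≤ (x - m) ^ 2} :=
      measureReal_mono h1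
    have h3 : (tl a).real (Set.Ioo (m - t) (m + t))ᶜ = 1 - (tl a).real (Set.Ioo (m - t) (m + t)) := by
      rw [measureReal_compl measurableSet_Ioo]
      simp
    have h4 : (tl a).real (Set.Ioo (m - t) (m + t)) ≤ 1 / 2 := by
      unfold Measure.real
      exact ENNReal.toReal_le_of_le_ofReal (by norm_num) hsmall
    linarith
  have hfin : t ^ 2 / 2 ≤ t ^ 2 * (tl a).real {x : ℝ | t ^ 2 ≤ (x - m) ^ 2} := by
    have : 0 < t ^ 2 := by positivity
    nlinarith
  have heq : 1 / (32 * b ^ 2) = t ^ 2 / 2 := by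
    rw [ht]; field_simp; ring
  rw [heq]
  exact hfin.trans hmark

end Pool.Agent.Helper53.FR
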